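import Pool.Agent.Helper73.BG.St
import Pool.Agent.Helper50.AY.St

/-!
PROJECT BP (MP_b3ce06_al): parameters and target for the theorem

  for EVERY prime power `q = p^n ≥ 4` the group `PSL(2, q)` is a composition factor of a finite group of
  deficiency zero, for odd `q` of
  `G_(l,k,h) = ⟨a, w, t | a w a = w a w⁻¹, w⁻¹ t w = t⁻¹, a_l = a_0 a_k t^h⟩`, `a_i = t⁻ⁱ a tⁱ`,
  for suitable `l, k, h` such that a field with `q` elements contains `x` with `x^h = -1`,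
  `x^l + x^k = 1`.

(`q` even: project C2 of helper46; finiteness of `G_(l,k,h)`: Helper70/BG, Helper73/BG for the group part,
helper48 and helper66 for the finite rings `L = ℤ[x]`, `x^h = -1`, `x^l + x^k = 1`.)

All modules are INDEPENDENT (the statements they use are hypotheses: prove
`theorem hXX (h1 : StYY) ... : StXX`).  In a module file: `import Pool.Agent.Helper50.BP.St`.
-/

set_option autoImplicit false

namespace Pool.Agent.Helper50.BP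

open Pool.Agent.Helper43.GD Pool.Agent.Helper73.BG

/-- the three relations -/
def Rel3 (l k h : ℕ) {G : Type} [Group G] (a w t : G) : Prop :=
  a * w * a = w * a * w⁻¹ ∧ w⁻¹ * t * w = t⁻¹ ∧ cj a t (l : ℤ) = a * cj a t (k : ℤ) * t ^ h

/-- class O: `v = x^k` has odd prime order `r` (`x` of order `2h`) -/
structure ClO (l k h r : ℕ) : Prop where
  h1 : 1 ≤ h
  pr : r.Prime
  odd : r ≠ 2
  rk : 2 * h ∣ r * k
  g : Nat.gcd (Nat.gcd k l) h = 1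
  cop : Cop l k h

/-- class E: `v = x^k` has order `2^a`, the full power of `2` in `2h`, `a ≥ 3` -/
structure ClE (l k h a : ℕ) : Prop where
  h1 : 1 ≤ h
  a3 : 3 ≤ a
  two : 2 ^ a ∣ 2 * h
  rk : 2 * h ∣ 2 ^ a * k
  kodd : k % 2 = 1
  g : Nat.gcd (Nat.gcd k l) h = 1
  cop : Cop l k h

/-- finiteness for the rings of given `(l, k, h)` (part (II)) -/
def FinR (l k h : ℕ) : Prop :=
  ∀ (L : Type) [CommRing L] (x : Lˣ), Finite L → Gn (x : L) → (x : L) ^ h = -1 →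
    (x : L) ^ l + (x : L) ^ k = 1 → FinP L x

/-- the field with `p^n` elements contains a solution -/
def Dat (p n l k h : ℕ) [Fact p.Prime] : Prop :=
  ∃ x : (GaloisField p n)ˣ, (x : GaloisField p n) ^ h = -1 ∧
    (x : GaloisField p n) ^ l + (x : GaloisField p n) ^ k = 1 ∧ Gn (x : GaloisField p n)

/-! ### A theorem of Zsigmondy type -/

/-- MODULE ZA (150 lines).  Let `Φ = (cyclotomic n ℤ).eval p`.
PROOF.  `Φ ∣ p^n - 1` (`Polynomial.cyclotomic.dvd_X_pow_sub_one`, evaluated), so `r ≠ p`.  Write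
`n = r^j m`, `r ∤ m` (`Nat.exists_eq_pow_mul_and_not_dvd`).  In `ZMod r` (a field of characteristic `r`)
`p` is a root of `cyclotomic (r^j m)`, so by `Polynomial.isRoot_cyclotomic_prime_pow_mul_iff_of_charP` `p` is a
primitive `m`-th root of unity in `ZMod r`: `(*)  r ∣ p^d - 1 ↔ m ∣ d` (`IsPrimitiveRoot.pow_eq_one_iff_dvd`),
and `m ∣ r - 1` (Fermat: `ZMod.pow_card_sub_one_eq_one`).
`j = 0`: `m = n`: first alternative.
`j ≥ 1`: `r ∣ n`.  A prime `r' ∣ n` is `r` or divides `m ∣ r - 1`, so `r' ≤ r` (`r ≥ 2`).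
`r = 2`: then `m ∣ 1`, `n = 2^j`, `j ≥ 2` (`n ≥ 3`), `Φ = y + 1` with `y = p^(2^(j-1))`
(`Polynomial.cyclotomic_prime_pow_eq_geom_sum`), `y` is the square of an odd number (`p` is odd as `r ≠ p`),
so `Φ = 2 mod 4` and `4 ∤ Φ`.
`r` odd: `y = p^(n/r)`; `m ∣ n/r = r^(j-1) m`, so `r ∣ y - 1`.  `(y - 1) Φ ∣ y^r - 1 = p^n - 1`
(`Polynomial.X_pow_sub_one_mul_cyclotomic_dvd_X_pow_sub_one_of_dvd`), `y > 1`.  By the lifting lemma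
(`Int.emultiplicity_pow_sub_pow` or `padicValNat.pow_sub_pow`) `v_r(y^r - 1) = v_r(y - 1) + 1`.  If
`r² ∣ Φ` then `v_r(y^r - 1) ≥ v_r(y - 1) + 2`, a contradiction. -/
def StZA : Prop :=
  ∀ p n r : ℕ, p.Prime → 3 ≤ p → 3 ≤ n → r.Prime →
    (r : ℤ) ∣ (Polynomial.cyclotomic n ℤ).eval (p : ℤ) →
    (n ∣ r - 1 ∧ ∀ d : ℕ, 1 ≤ d → r ∣ p ^ d - 1 → n ∣ d) ∨
    (r ∣ n ∧ (∀ r' : ℕ, r'.Prime → r' ∣ n → r' ≤ r) ∧
      ¬ (r : ℤ) ^ 2 ∣ (Polynomial.cyclotomic n ℤ).eval (p : ℤ))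

/-- MODULE ZB (30 lines).
PROOF.  `Polynomial.sub_one_pow_totient_lt_cyclotomic_eval` (real numbers, `q = p`): `(p-1)^φ(n) < Φ`, and
`2 ≤ p - 1`.  `Polynomial.map_cyclotomic_int`, `Polynomial.eval_intCast_map`, cast to `ℤ`. -/
def StZB : Prop :=
  ∀ p n : ℕ, 3 ≤ p → 3 ≤ n →
    (2 : ℤ) ^ (Nat.totient n) < (Polynomial.cyclotomic n ℤ).eval (p : ℤ)

/-- MODULE ZS (90 lines, uses ZA ZB).
PROOF.  `Φ = (cyclotomic n ℤ).eval p > 2^φ(n) ≥ 1` (ZB) and `Φ ∣ p^n - 1`.  If some prime `r ∣ Φ` satisfies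
the first alternative of ZA: `r ∣ p^n - 1`; `n ∣ r - 1`, `r - 1 ≥ 1`, so `r ≥ n + 1 ≥ 4` and `r ≥ 5` as `4` is
not prime; if `r ∣ p^d - 1` with `1 ≤ d < n` then `n ∣ d`, a contradiction.  Otherwise all primes
`r ∣ Φ` satisfy the second alternative; two such primes are equal (each is `≤` the other one), so `Φ` is a
power of one prime `r` (`Nat.eq_prime_pow_of_unique_prime_dvd`, with `Φ.natAbs`), and `r² ∤ Φ`, so `Φ = r`.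
`r ∣ n` gives `φ(r) = r - 1 ∣ φ(n)` (`Nat.totient_dvd_of_dvd`, `Nat.totient_prime`), `φ(n) ≥ 1`, so
`r - 1 ≤ φ(n)` and `r = Φ > 2^φ(n) ≥ 2^(r-1) ≥ r` (`Nat.lt_two_pow_self`), a contradiction. -/
def StZS : Prop :=
  ∀ p n : ℕ, p.Prime → 3 ≤ p → 3 ≤ n → ∃ r : ℕ, r.Prime ∧ 5 ≤ r ∧ r ∣ p ^ n - 1 ∧
    ∀ d : ℕ, 1 ≤ d → d < n → ¬ r ∣ p ^ d - 1

/-! ### Parameters -/

/-- MODULE GNV (90 lines).
PROOF.  Let `N` be an additive subgroup of `K = GaloisField p n` with `1 ∈ N`, `x N ⊂ N`; so `v = x^k`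
satisfies `v N ⊂ N` and `N` contains all powers of `v`, hence (`N` is closed under addition) all elements
of `F = Algebra.adjoin (ZMod p) {v}` (or `IntermediateField.adjoin (ZMod p) {v}`: `v` is algebraic over the
finite field).  `F` is a field with `p^d` elements, `d = [F : ZMod p] ≥ 1`, and `d ∣ n`
(`Module.finrank_mul_finrank`, `GaloisField.finrank`), so `d ≤ n`.  `v ≠ 0` is in `F`, so
`v^(p^d - 1) = 1` (`FiniteField.pow_card_sub_one_eq_one`).  By hypothesis not `d < n`; so `d = n` and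
`F = K`. -/
def StGNV : Prop :=
  ∀ (p : ℕ) [Fact p.Prime] (n : ℕ), 1 ≤ n → ∀ (v x : (GaloisField p n)ˣ) (k : ℕ), x ^ k = v →
    (∀ d : ℕ, 1 ≤ d → d < n → v ^ (p ^ d - 1) ≠ 1) → Gn (x : GaloisField p n)

/-- MODULE XK (110 lines).
PROOF.  `v' = 1 - v ≠ 0` is a unit.  `H = Subgroup.closure {v, v', -1} ≤ Kˣ` is cyclic (subgroup of the
cyclic group `Kˣ`, `K` a finite field), generated by `x`, say (`zpowers x = H`).  As `x` has finite order all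
elements of `H` are powers `x^i`, `i : ℕ`, and `i` can be taken `≥ 1` (add the order): `x^k = v`,
`x^l = v'`, `x^m = -1`.  `-1 ≠ 1` (`2 ≠ 0`), so `x^(2m) = 1`, `x^m ≠ 1` and the order of `x` is even:
`orderOf x = 2h`, `h ≥ 1`.  `(x^h)² = 1`, `x^h ≠ 1`, so `x^h = -1` (field).  If `g = gcd(gcd(k,l),h)` then `v`,
`v'`, `-1` are powers of `x^g`, so `x` is: `x = (x^g)^j`, `2h ∣ gj - 1`, so `g` is prime to `h`; as `g ∣ h`,
`g = 1`. -/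
def StXK : Prop :=
  ∀ (K : Type) [Field K] [Finite K], (2 : K) ≠ 0 → ∀ v : Kˣ, v ≠ 1 →
    ∃ (x : Kˣ) (k l h : ℕ), 1 ≤ h ∧ 1 ≤ k ∧ 1 ≤ l ∧ orderOf x = 2 * h ∧ x ^ k = v ∧
      (x : K) ^ l + (x : K) ^ k = 1 ∧ (x : K) ^ h = -1 ∧ Nat.gcd (Nat.gcd k l) h = 1

/-- MODULE CP (70 lines, numbers only).
PROOF.  `M = h + 3k ≥ 1`.  `j` = the product of all primes `s ∣ M` with `s ∤ k + l`.  Claim: `k + l + 2hj` and
`M` are coprime.  Let `s` be a prime divisor of both.  If `s ∣ k + l`: `s ∣ 2hj`; `s ∤ 2h` by hypothesis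
(`s ∣ M`), and `s ∤ j` (`j` is a product of primes different from `s`), a contradiction.  If `s ∤ k + l`:
`s ∣ j`, so `s ∣ k + l`, a contradiction.  With `l' = l + 2hj`:
`h + k - 2l' = (h + 3k) - 2(k + l')`, so `Cop l' k h` (`Int.isCoprime_iff_gcd_eq_one`, or Bezout
`u (k+l') + v M = 1` gives `(u + 2v)(k+l') + v (h+k-2l') = 1`).  `gcd(gcd(k,l'),h) = gcd(gcd(k,l),h)` as
`h ∣ 2hj`. -/
def StCP : Prop :=
  ∀ l k h : ℕ, 1 ≤ h → Nat.gcd (Nat.gcd k l) h = 1 →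
    (∀ s : ℕ, s.Prime → s ∣ 2 * h → s ∣ k + l → ¬ s ∣ h + 3 * k) →
    ∃ j : ℕ, Cop (l + 2 * h * j) k h ∧ Nat.gcd (Nat.gcd k (l + 2 * h * j)) h = 1

/-- MODULE DO (110 lines, uses GNV XK CP).
PROOF.  `K = GaloisField p n`, `p^n` elements, `2 ≠ 0`.  `r ∣ p^n - 1 = |Kˣ|`: there is `v ∈ Kˣ` of order `r`
(Cauchy: `exists_prime_orderOf_dvd_card`), `v ≠ 1`; `v^(p^d-1) ≠ 1` for `1 ≤ d < n`
(`orderOf_dvd_iff_pow_eq_one`).  XK: `x, k, l, h`.  `x^(rk) = 1`, so `2h ∣ rk`.  CP: let `s ∣ 2h` be a prime with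
`s ∣ k + l`, `s ∣ h + 3k`.
`s = 2`: `2 ∣ 2h ∣ rk`, `r` odd, so `k` is even; then `h` is even and `l` is even, `2 ∣ gcd(gcd(k,l),h) = 1`, a
contradiction.  `s` odd: `s ∣ h`, so `s ∣ 3k`.  If `s ∣ k` then `s ∣ l`, a contradiction as before.  Else
`s = 3 ∣ 2h ∣ rk`, `r ≥ 5` prime, so `3 ∣ k`, a contradiction.
So CP gives `j`; `l' = l + 2hj`; `x^(l') = x^l` (`x^(2h) = 1`).  `ClO l' k h r`, and `Dat` with `x` (GNV). -/
def StDO : Prop :=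
  ∀ (p : ℕ) [Fact p.Prime] (n r : ℕ), p ≠ 2 → 1 ≤ n → r.Prime → 5 ≤ r → r ∣ p ^ n - 1 →
    (∀ d : ℕ, 1 ≤ d → d < n → ¬ r ∣ p ^ d - 1) → ∃ l k h : ℕ, ClO l k h r ∧ Dat p n l k h

/-- MODULE DT (130 lines, uses GNV XK CP; compare DO).
PROOF.  `K = GaloisField p 1`, `|Kˣ| = p - 1 = 2^a 3^b`, `v ∈ Kˣ` of order 3, `v² + v + 1 = 0`.  XK:
`x, k, l, h`; `2h ∣ 3k`; `2h ∣ 2^a 3^b` (order of `x`).  CP: let `s ∣ 2h` be a prime with `s ∣ k + l`,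
`s ∣ h + 3k`.  `s = 2`, and `s` odd, `s ≠ 3`: as in DO.  `s = 3`: `3 ∣ 2h ∣ 3k`.  If `9 ∣ 2h` then `9 ∣ 3k`,
`3 ∣ k`, `3 ∣ l`, `3 ∣ h`, a contradiction.  So `2h = 3c`, `3 ∤ c`, `c ∣ 2^a 3^b`, so `c ∣ 2^a ∣ 4`.
`(1 - v)² = 1 - 2v + v² = -3v`, so `x^(2(k+l)) = (v (1-v))² = v² (-3v) = -3`.  `k + l = 3e`:
`(-3)^c = x^(2(k+l)c) = x^(2h · 2e) = 1`, so `81 = (-3)^4 = 1` in `K` and `p ∣ 80`, `p = 5` (`p` is odd); but
`3 ∣ p - 1`, a contradiction.  The rest as in DO. -/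
def StDT : Prop :=
  ∀ (p : ℕ) [Fact p.Prime] (a b : ℕ), p - 1 = 2 ^ a * 3 ^ b → 1 ≤ a → a ≤ 2 → 1 ≤ b →
    ∃ l k h : ℕ, ClO l k h 3 ∧ Dat p 1 l k h

/-- MODULE DE (120 lines, uses GNV XK CP; compare DO).
PROOF.  `K = GaloisField p n`, `|Kˣ| = p^n - 1` is even, so `p ≠ 2`.  `Kˣ` is cyclic, so it contains `v` of
order `2^a`; `v ≠ 1`; `v^(p^d-1) ≠ 1` for `1 ≤ d < n`.  XK: `x, k, l, h`; `x^(2^a k) = 1`, so
`2h ∣ 2^a k`; `orderOf v = 2^a ∣ orderOf x = 2h`.  `2h ∣ p^n - 1`, so `2^(a+1) ∤ 2h`.  `k` is odd: if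
`k = 2k'` then `v^(2^(a-1)) = x^(2^a k')` and `2h = 2^a c`, `c` odd, `c ∣ k = 2k'` (`2^a c ∣ 2^a k`), so
`c ∣ k'` and `2h ∣ 2^a k'`, `v^(2^(a-1)) = 1`, a contradiction.
CP: let `s ∣ 2h` be a prime with `s ∣ k + l`, `s ∣ h + 3k`.  `s = 2`: `h` is even (`8 ∣ 2h`), `3k` odd, a
contradiction.  `s` odd: `s ∣ h`; `s ∣ 2h ∣ 2^a k` gives `s ∣ k`, so `s ∣ l`, a contradiction to
`gcd(gcd(k,l),h) = 1`.  The rest as in DO: `ClE l' k h a`, `Dat`. -/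
def StDE : Prop :=
  ∀ (p : ℕ) [Fact p.Prime] (n a : ℕ), 1 ≤ n → 3 ≤ a → 2 ^ a ∣ p ^ n - 1 →
    ¬ 2 ^ (a + 1) ∣ p ^ n - 1 → (∀ d : ℕ, 1 ≤ d → d < n → ¬ 2 ^ a ∣ p ^ d - 1) →
    ∃ l k h : ℕ, ClE l k h a ∧ Dat p n l k h

/-- MODULE DF (40 lines, uses GNV).
PROOF.  `K = GaloisField 5 1`, `5 = 0` in `K`; `x = 2` (a unit, `2 · 3 = 1`): `x² = 4 = -1`,
`x² + x = 6 = 1`; GNV with `n = 1` (no condition). -/
def StDF : Prop := ∀ (_ : Fact (Nat.Prime 5)), Dat 5 1 2 1 2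

/-- MODULE PAR (90 lines, uses ZS DO DT DE DF).
PROOF.  `p ≥ 3` is odd.
`n ≥ 3`: ZS, DO.
`n = 2`: `8 ∣ p² - 1 > 0`; let `a ≥ 3` be maximal with `2^a ∣ p² - 1` (`a = padicValNat 2 (p^2-1)`).
`2^a ∤ p - 1`: else `2^(a+1) ∣ (p-1)(p+1) = p² - 1`, as `p + 1` is even.  DE.
`n = 1`, `p ≥ 5`: if a prime `r ≥ 5` divides `p - 1`: DO (`n = 1`).  Else `p - 1 = 2^a 3^b` (all prime factors
are 2 or 3), `a ≥ 1`.  `a ≥ 3`: DE (`n = 1`; `2^(a+1) ∤ 2^a 3^b`).  `a ≤ 2`, `b ≥ 1`: DT.  `b = 0`: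
`p - 1 ∈ {2, 4}`, `p = 5` (`p ≥ 5`): DF. -/
def StPAR : Prop :=
  ∀ (p : ℕ) [Fact p.Prime] (n : ℕ), p ≠ 2 → 1 ≤ n → 4 ≤ p ^ n →
    ∃ l k h : ℕ, ((∃ r, ClO l k h r) ∨ (∃ a, ClE l k h a) ∨ (l = 2 ∧ k = 1 ∧ h = 2)) ∧
      Dat p n l k h

/-! ### The field with five elements -/

/-- MODULE F5 (110 lines, uses GD.StHAT GD.StCEL AY.StPFA AY.StAUA; compare
`Pool/Agent/Helper41/AY/M_INA.lean`).
PROOF.  `l = 2, k = 1, h = 2`: `x² = -1`, `x² + x = 1` give `x = 2`, `5 = 0` in `L`; by `Gn x` every element of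
`L` is one of `0, 1, 2, 3, 4`.  `L` trivial: all `E(a) = E(0) = 1`.  Otherwise `L` is a field with five
elements (`2 · 3 = 1`, `4 · 4 = 1`): local, `2` is a unit, `x² - 1 = 3` is a unit (AY.Rf), and every unit is
`1, 2 = x, 4 = x², 3 = x³`.  Universal `s` (HAT), `Q` (AUA), `x ∈ Q.U`, so every unit is in `Q.U`, CEL:
`Q.gp` is finite.  The end is the same as in `M_INA.lean` (Schur: PFA). -/
def StF5 : Prop := FinR 2 1 2

/-! ### Target -/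

/-- MODULE TG (200 lines; compare `Pool/Agent/Helper24/AY/M_TGQ.lean`, `Pool/Agent/Helper11/GD/M_TG.lean`).
PROOF.  `K = GaloisField p n`, `x` from `Dat`.  `S = SL(2,K)`, `T = MulAut S`.  `c : S → T` conjugation, with
kernel the centre of `S`, so `c(S) ≅ PSL(2,K)`, normal in `T` (`φ c(g) φ⁻¹ = c(φ g)`).
`E(y) = [1 y; 0 1]`, `F(y) = [1 0; y 1]`, `w₀ = [0 1; -1 0]`.  For `u ∈ Kˣ` let `τ_u ∈ T`:
`[α β; γ δ] ↦ [α uβ; u⁻¹γ δ]`; `τ_u τ_v = τ_(uv)`, `τ_u(E(y)) = E(uy)`, `τ_u(F(y)) = F(u⁻¹y)`,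
`τ_u c(g) τ_u⁻¹ = c(τ_u g)`, `c(w₀)⁻¹ τ_u c(w₀) = τ_u⁻¹`.
`a = c(E(1)) τ_(-1)`, `w = c(w₀) τ_(-1)`, `t = τ_(x⁻¹)`.
Relations: `w² = c(w₀ τ_(-1)(w₀)) = c(w₀ w₀⁻¹) = 1`, `a² = c(E(1) E(-1)) = 1`,
`a w = c(E(1) τ_(-1)(w₀)) = c(E(1) w₀⁻¹)` and `E(1) w₀⁻¹ = [1 -1; 1 0]` has cube `-1`, so `(aw)³ = 1` and
`a w a = w⁻¹ a⁻¹ w⁻¹ = w a w⁻¹`.  `w⁻¹ t w = t⁻¹`.
`cj a t i = t⁻ⁱ a tⁱ = c(E(xⁱ)) τ_(-1)`, `t^h = τ_(x^(-h)) = τ_(-1)`, so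
`a · cj a t k · t^h = c(E(1)) τ_(-1) c(E(x^k)) τ_(-1) τ_(-1) = c(E(1 - x^k)) τ_(-1) = c(E(x^l)) τ_(-1)`.
Let `f : G → T`, `G` generated by `ga, gw, gt ↦ a, w, t`.  The range `R` contains `t^h = τ_(-1)`, `c(E(1))`,
`c(w₀)`; `{y : c(E(y)) ∈ R}` is an additive subgroup, contains `1`, stable under `x` (conjugation by `t⁻¹`),
so it is `K` (`Gn x`); `c(F(y)) = c(w₀) c(E(-y)) c(w₀)⁻¹ ∈ R`; transvections generate `S`, so `c(S) ⊂ R`.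
`Lc = f⁻¹(c(S))` is normal and maps onto `c(S) ≅ PSL(2,K)`. -/
def StTG : Prop :=
  ∀ (p : ℕ) [Fact p.Prime] (n l k h : ℕ), Dat p n l k h →
    ∃ (T : Type) (_ : Group T) (a w t : T), Rel3 l k h a w t ∧
      ∀ (G : Type) [Group G] (f : G →* T) (ga gw gt : G), f ga = a → f gw = w → f gt = t →
        Subgroup.closure {ga, gw, gt} = (⊤ : Subgroup G) →
        ∃ Lc : Subgroup G, Lc.Normal ∧
          ∃ f' : Lc →* Matrix.ProjectiveSpecialLinearGroup (Fin 2) (GaloisField p n),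
            Function.Surjective f'

end Pool.Agent.Helper50.BP
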