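import Pool.Agent.Helper50.BP.Asm
import Pool.Agent.Helper99.BP.M_ZA
import Pool.Agent.Helper42.BP.M_ZB
import Pool.Agent.Helper16.BP.M_ZS
import Pool.Agent.Helper39.BP.M_GNV
import Pool.Agent.Helper89.BP.M_XK
import Pool.Agent.Helper8.BP.M_CP
import Pool.Agent.Helper41.BP.M_DO
import Pool.Agent.Helper22.BP.M_DT
import Pool.Agent.Helper32.BP.M_DE
import Pool.Agent.Helper69.BP.M_DF
import Pool.Agent.Helper53.BP.M_PAR
import Pool.Agent.Helper26.BP.M_F5
import Pool.Agent.Helper33.BP.M_TG
import Pool.Agent.Helper50.AY.All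
import Pool.Agent.Helper46.C2.All

/-! Project BP: all modules together; the finiteness of the ring part (classes O and E) is a
hypothesis. -/

set_option autoImplicit false

namespace Pool.Agent.Helper50.BP

open Pool.Agent Pool.Agent.Helper41.DZ

theorem pZA : StZA := Helper99.BP.hZA
theorem pZB : StZB := Helper42.BP.hZB
theorem pZS : StZS := Helper16.BP.hZS pZA pZB
theorem pGNV : StGNV := Helper39.BP.hGNV
theorem pXK : StXK := Helper89.BP.hXK
theorem pCP : StCP := Helper8.BP.hCP
theorem pDO : StDO := Helper41.BP.hDO pGNV pXK pCP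
theorem pDT : StDT := Helper22.BP.hDT pGNV pXK pCP
theorem pDE : StDE := Helper32.BP.hDE pGNV pXK pCP
theorem pDF : StDF := Helper69.BP.hDF pGNV
theorem pPAR : StPAR := Helper53.BP.hPAR pZS pDO pDT pDE pDF
theorem pF5 : StF5 :=
  Helper26.BP.hF5 Helper43.GD.pHAT Helper43.GD.pCEL Helper50.AY.pPFA Helper50.AY.pAUA
theorem pTG : StTG := Helper33.BP.hTG

/-- every prime power `q ≥ 4`, with the finiteness of the ring part as hypothesis -/
theorem all (hFO : ∀ l k h r, ClO l k h r → FinR l k h)
    (hFE : ∀ l k h a, ClE l k h a → FinR l k h)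
    (p : ℕ) [hF : Fact p.Prime] (n : ℕ) (h4 : 4 ≤ p ^ n) :
    ∃ (G : Type) (_ : Group G), Finite G ∧ DeficiencyZero G ∧
      IsCompositionFactor
        (Matrix.ProjectiveSpecialLinearGroup (Fin 2) (GaloisField p n)) G :=
  main_all Helper46.C2.all hFO hFE pF5 pPAR pTG p n h4

end Pool.Agent.Helper50.BP
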