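import Pool.Agent.Helper50.BP.St
import Pool.Agent.Helper73.BG.M_B6
import Pool.Agent.Helper41.DZ.CompSeries

/-! Assembly of project BP (odd `q`). -/

set_option autoImplicit false
set_option linter.unusedSimpArgs false

namespace Pool.Agent.Helper50.BP

open Pool.Agent.Helper43.GD Pool.Agent.Helper73.BG Pool.Agent.Helper41.DZ

/-- finiteness of the group with presentation `(l, k, h)` -/
theorem finG (l k h : ℕ) (h1 : 1 ≤ h) (hc : Cop l k h) (hfin : FinR l k h)
    (G : Type) [Group G] (a w t : G) (hR : Rel3 l k h a w t)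
    (hcl : Subgroup.closure {a, w, t} = (⊤ : Subgroup G)) : Finite G :=
  partAB l k h h1 hc hfin G a w t hR.1 hR.2.1 hR.2.2 hcl

section free

def ga : FreeGroup (Fin 3) := FreeGroup.of 0
def gw : FreeGroup (Fin 3) := FreeGroup.of 1
def gt : FreeGroup (Fin 3) := FreeGroup.of 2

/-- the three relators -/
def r1 : FreeGroup (Fin 3) := (ga * gw * ga) * (gw * ga * gw⁻¹)⁻¹
def r2 : FreeGroup (Fin 3) := (gw⁻¹ * gt * gw) * (gt⁻¹)⁻¹
def r3 (l k h : ℕ) : FreeGroup (Fin 3) :=
  cj ga gt (l : ℤ) * (ga * cj ga gt (k : ℤ) * gt ^ h)⁻¹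

theorem map_cj {G H : Type} [Group G] [Group H] (f : G →* H) (a t : G) (i : ℤ) :
    f (cj a t i) = cj (f a) (f t) i := by
  unfold cj
  rw [map_mul, map_mul, map_zpow, map_zpow]

/-- exponent sum of `a` -/
def sumA : FreeGroup (Fin 3) →* Multiplicative ℤ :=
  FreeGroup.lift ![Multiplicative.ofAdd 1, 1, 1]

theorem sumA_a : sumA ga = Multiplicative.ofAdd 1 := by simp [sumA, ga]
theorem sumA_w : sumA gw = 1 := by simp [sumA, gw]
theorem sumA_t : sumA gt = 1 := by simp [sumA, gt]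

theorem sumA_r1 : sumA r1 = Multiplicative.ofAdd 1 := by
  simp only [r1, map_mul, map_inv, sumA_a, sumA_w]
  simp

theorem sumA_r2 : sumA r2 = 1 := by
  simp only [r2, map_mul, map_inv, sumA_w, sumA_t]
  simp

theorem sumA_r3 (l k h : ℕ) : sumA (r3 l k h) = Multiplicative.ofAdd (-1) := by
  simp only [r3, map_mul, map_inv, map_cj, map_pow, sumA_a, sumA_t, cj]
  apply Multiplicative.toAdd.injective
  simp

/-- the set of relators -/
noncomputable def rels (l k h : ℕ) : Finset (FreeGroup (Fin 3)) := by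
  classical exact {r1, r2, r3 l k h}

theorem rels_card (l k h : ℕ) : (rels l k h).card = 3 := by
  classical
  have h12 : r1 ≠ r2 := by
    intro e
    have := congrArg sumA e
    rw [sumA_r1, sumA_r2] at this
    have h' : (1 : ℤ) = 0 := Multiplicative.ofAdd.injective this
    omega
  have h13 : r1 ≠ r3 l k h := by
    intro e
    have := congrArg sumA e
    rw [sumA_r1, sumA_r3] at this
    have h' : (1 : ℤ) = -1 := Multiplicative.ofAdd.injective this
    omega
  have h23 : r2 ≠ r3 l k h := by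
    intro e
    have := congrArg sumA e
    rw [sumA_r2, sumA_r3] at this
    have h' : (0 : ℤ) = -1 := Multiplicative.ofAdd.injective this
    omega
  rw [rels]
  convert Finset.card_eq_three.2 ⟨r1, r2, r3 l k h, h12, h13, h23, rfl⟩

theorem mem_rels {l k h : ℕ} (w : FreeGroup (Fin 3)) :
    w ∈ (rels l k h : Set (FreeGroup (Fin 3))) ↔ w = r1 ∨ w = r2 ∨ w = r3 l k h := by
  classical
  simp [rels]

theorem rel_iff {G : Type} [Group G] (f : FreeGroup (Fin 3) →* G) (l k h : ℕ) :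
    Rel3 l k h (f ga) (f gw) (f gt) ↔ f r1 = 1 ∧ f r2 = 1 ∧ f (r3 l k h) = 1 := by
  unfold Rel3
  have e1 : f r1 = 1 ↔ f ga * f gw * f ga = f gw * f ga * (f gw)⁻¹ := by
    rw [r1, map_mul, map_inv, mul_inv_eq_one]
    simp only [map_mul, map_inv]
  have e2 : f r2 = 1 ↔ (f gw)⁻¹ * f gt * f gw = (f gt)⁻¹ := by
    rw [r2, map_mul, map_inv, mul_inv_eq_one]
    simp only [map_mul, map_inv]
  have e3 : f (r3 l k h) = 1 ↔
      cj (f ga) (f gt) (l : ℤ) = f ga * cj (f ga) (f gt) (k : ℤ) * f gt ^ h := by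
    rw [r3, map_mul, map_inv, mul_inv_eq_one]
    simp only [map_mul, map_cj, map_pow]
  rw [e1, e2, e3]

end free

/-- from finiteness and `Dat` to the composition factor -/
theorem main_lkh (hTG : StTG) (p : ℕ) [hF : Fact p.Prime] (n l k h : ℕ) (hn : 1 ≤ n)
    (h4 : 4 ≤ p ^ n) (h1 : 1 ≤ h) (hc : Cop l k h) (hfinR : FinR l k h) (hD : Dat p n l k h) :
    ∃ (G : Type) (_ : Group G), Finite G ∧ DeficiencyZero G ∧
      IsCompositionFactor
        (Matrix.ProjectiveSpecialLinearGroup (Fin 2) (GaloisField p n)) G := by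
  let R := rels l k h
  let G := PresentedGroup (R : Set (FreeGroup (Fin 3)))
  let π : FreeGroup (Fin 3) →* G := PresentedGroup.mk (R : Set (FreeGroup (Fin 3)))
  have hrel : Rel3 l k h (π ga) (π gw) (π gt) := by
    rw [rel_iff]
    exact ⟨PresentedGroup.one_of_mem ((mem_rels _).2 (Or.inl rfl)),
      PresentedGroup.one_of_mem ((mem_rels _).2 (Or.inr (Or.inl rfl))),
      PresentedGroup.one_of_mem ((mem_rels _).2 (Or.inr (Or.inr rfl)))⟩
  have hgen : Subgroup.closure {π ga, π gw, π gt} = (⊤ : Subgroup G) := by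
    rw [← PresentedGroup.closure_range_of (R : Set (FreeGroup (Fin 3)))]
    congr 1
    ext g
    constructor
    · rintro (rfl | rfl | rfl)
      · exact ⟨0, rfl⟩
      · exact ⟨1, rfl⟩
      · exact ⟨2, rfl⟩
    · rintro ⟨b, rfl⟩
      fin_cases b
      · exact Or.inl rfl
      · exact Or.inr (Or.inl rfl)
      · exact Or.inr (Or.inr rfl)
  have hfin : Finite G := finG l k h h1 hc hfinR G (π ga) (π gw) (π gt) hrel hgen
  have hdef : DeficiencyZero G :=
    ⟨Fin 3, inferInstance, R, by rw [rels_card]; rfl, ⟨MulEquiv.refl _⟩⟩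
  obtain ⟨T, _, a, w, t, hrelT, hTr⟩ := hTG p n l k h hD
  let ρ : FreeGroup (Fin 3) →* T := FreeGroup.lift ![a, w, t]
  have ρa : ρ ga = a := by simp [ρ, ga]
  have ρw : ρ gw = w := by simp [ρ, gw]
  have ρt : ρ gt = t := by simp [ρ, gt]
  have hρ := (rel_iff ρ l k h).1 (by rw [ρa, ρw, ρt]; exact hrelT)
  have hrels : ∀ w' ∈ (R : Set (FreeGroup (Fin 3))), FreeGroup.lift ![a, w, t] w' = 1 := by
    intro w' hw'
    rcases (mem_rels w').1 hw' with rfl | rfl | rfl
    · exact hρ.1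
    · exact hρ.2.1
    · exact hρ.2.2
  let φ : G →* T := PresentedGroup.toGroup hrels
  have hφ : ∀ i : Fin 3, φ (PresentedGroup.of i) = ![a, w, t] i := fun i =>
    PresentedGroup.toGroup.of hrels (x := i)
  obtain ⟨L, hL, f', hf'⟩ := hTr G φ (π ga) (π gw) (π gt) (hφ 0) (hφ 1) (hφ 2) hgen
  have hcard : 4 ≤ Nat.card (GaloisField p n) := by
    rw [GaloisField.card p n (by omega)]
    exact h4
  exact ⟨G, inferInstance, hfin, hdef,
    factor_of_section _ (Matrix.ProjectiveSpecialLinearGroup.rank_two_simple hcard) _ G rfl L hL f'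
      hf'⟩

/-- odd `q` -/
theorem main_odd (hFO : ∀ l k h r, ClO l k h r → FinR l k h)
    (hFE : ∀ l k h a, ClE l k h a → FinR l k h) (hF5 : StF5) (hPAR : StPAR) (hTG : StTG)
    (p : ℕ) [hF : Fact p.Prime] (n : ℕ) (hp : p ≠ 2) (h4 : 4 ≤ p ^ n) :
    ∃ (G : Type) (_ : Group G), Finite G ∧ DeficiencyZero G ∧
      IsCompositionFactor
        (Matrix.ProjectiveSpecialLinearGroup (Fin 2) (GaloisField p n)) G := by
  have hn : 1 ≤ n := by
    rcases Nat.eq_zero_or_pos n with h0 | h0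
    · rw [h0, pow_zero] at h4
      omega
    · exact h0
  obtain ⟨l, k, h, hcl, hD⟩ := hPAR p n hp hn h4
  rcases hcl with ⟨r, hr⟩ | ⟨a, ha⟩ | ⟨rfl, rfl, rfl⟩
  · exact main_lkh hTG p n l k h hn h4 hr.h1 hr.cop (hFO l k h r hr) hD
  · exact main_lkh hTG p n l k h hn h4 ha.h1 ha.cop (hFE l k h a ha) hD
  · refine main_lkh hTG p n 2 1 2 hn h4 (by norm_num) ?_ hF5 hD
    unfold Cop
    rw [Int.isCoprime_iff_gcd_eq_one]
    norm_num

/-- all `q ≥ 4`, with the characteristic 2 case as hypothesis -/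
theorem main_all
    (hC2 : ∀ n : ℕ, 2 ≤ n → ∃ (G : Type) (_ : Group G), Finite G ∧ DeficiencyZero G ∧
      IsCompositionFactor
        (Matrix.ProjectiveSpecialLinearGroup (Fin 2) (GaloisField 2 n)) G)
    (hFO : ∀ l k h r, ClO l k h r → FinR l k h)
    (hFE : ∀ l k h a, ClE l k h a → FinR l k h) (hF5 : StF5) (hPAR : StPAR) (hTG : StTG)
    (p : ℕ) [hF : Fact p.Prime] (n : ℕ) (h4 : 4 ≤ p ^ n) :
    ∃ (G : Type) (_ : Group G), Finite G ∧ DeficiencyZero G ∧
      IsCompositionFactor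
        (Matrix.ProjectiveSpecialLinearGroup (Fin 2) (GaloisField p n)) G := by
  by_cases hp : p = 2
  · subst hp
    have hn : 2 ≤ n := by
      by_contra hlt
      have : n ≤ 1 := by omega
      have h2 : 2 ^ n ≤ 2 ^ 1 := Nat.pow_le_pow_right (by norm_num) this
      omega
    exact hC2 n hn
  · exact main_odd hFO hFE hF5 hPAR hTG p n hp h4

end Pool.Agent.Helper50.BP
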