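import Pool.Agent.Helper50.BP.All
import Pool.Agent.Helper48.OD.All

/-! Project BP + OD: every prime power `q ≥ 4`. -/

set_option autoImplicit false

namespace Pool.Agent.Helper50.BP

open Pool.Agent Pool.Agent.Helper41.DZ

/-- class O -/
theorem finO : ∀ l k h r, ClO l k h r → FinR l k h := by
  intro l k h r c L _ x hfin hgn hx ht
  exact Helper48.OD.pFO l k h r L x
    ⟨c.h1, c.pr, c.pr.odd_of_ne_two c.odd, c.rk, c.g, hfin, hgn, hx, ht⟩

/-- class E -/
theorem finE : ∀ l k h a, ClE l k h a → FinR l k h := by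
  intro l k h a c L _ x hfin hgn hx ht
  exact Helper48.OD.pFE l k h a L x
    ⟨c.h1, c.a3, Nat.odd_iff.2 c.kodd, c.rk, c.two, c.g, hfin, hgn, hx, ht⟩

/-- every prime power `q ≥ 4` -/
theorem final (p : ℕ) [hF : Fact p.Prime] (n : ℕ) (h4 : 4 ≤ p ^ n) :
    ∃ (G : Type) (_ : Group G), Finite G ∧ DeficiencyZero G ∧
      IsCompositionFactor
        (Matrix.ProjectiveSpecialLinearGroup (Fin 2) (GaloisField p n)) G :=
  all finO finE p n h4

end Pool.Agent.Helper50.BP
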